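import Pool.Agent.H460Z.DmLat

set_option autoImplicit false

/-! Fourier picture of the lattice quotient. -/

namespace H876Z.Dl

open H460Z.Dm Finset
open scoped symmDiff

variable {m : ℕ}

/-- functions on the acting group with values modulo `2^(m+2)` -/
abbrev Rg (m : ℕ) := S m → ZMod (2 ^ (m + 2))

/-- twice the Fourier transform -/
def F : Lam m →+ Rg m where
  toFun w := fun u => ((2 * ∑ T, ch u T * w T : ℤ) : ZMod (2 ^ (m + 2)))
  map_zero' := by funext u; simp
  map_add' v w := by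
    funext u
    simp only [Pi.add_apply, mul_add, Finset.sum_add_distrib]
    push_cast
    ring

lemma F_apply (w : Lam m) (u : S m) :
    F w u = ((2 * ∑ T, ch u T * w T : ℤ) : ZMod (2 ^ (m + 2))) := rfl

/-- translation -/
def sh (v : S m) : Rg m →+* Rg m where
  toFun f := fun u => f (u + v)
  map_one' := rfl
  map_mul' _ _ := rfl
  map_zero' := rfl
  map_add' _ _ := rfl

lemma sh_apply (v : S m) (f : Rg m) (u : S m) : sh v f u = f (u + v) := rfl

lemma sh_sh (u v : S m) (f : Rg m) : sh u (sh v f) = sh (u + v) f := by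
  funext x
  simp only [sh_apply, add_assoc]

lemma sh_zero (f : Rg m) : sh 0 f = f := by
  funext x
  simp only [sh_apply, add_zero]

lemma F_ch (v : S m) (w : Lam m) : F (ch v * w) = sh v (F w) := by
  funext u
  simp only [sh_apply, F_apply, ch_add, Pi.mul_apply, mul_assoc]

lemma F_M (w : Lam m) (hw : w ∈ M m) : F w = 0 := by
  funext u
  rw [F_apply, Pi.zero_apply, ZMod.intCast_zmod_eq_zero_iff_dvd]
  have h := sum_dvd_of_mem_M _ (M_mul u w hw)
  simp only [Pi.mul_apply] at h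
  push_cast
  rw [pow_succ' 2 (m + 1)]
  exact mul_dvd_mul_left _ h

lemma ch_eq (u : S m) (T : X m) : ch u T = ∏ i, if i ∈ T then sg (u i) else 1 := by
  unfold ch
  rw [Finset.prod_ite_mem, Finset.univ_inter]

lemma sg_sq (a : ZMod 2) : sg a * sg a = 1 := by
  revert a; decide

lemma ch_symm (u : S m) (T U : X m) : ch u (T ∆ U) = ch u T * ch u U := by
  rw [ch_eq, ch_eq, ch_eq, ← Finset.prod_mul_distrib]
  apply Finset.prod_congr rfl
  intro i _
  by_cases h1 : i ∈ T <;> by_cases h2 : i ∈ U <;> simp [Finset.mem_symmDiff, h1, h2, sg_sq]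

lemma sum_ch (W : X m) : ∑ u : S m, ch u W = if W = ∅ then 2 ^ m else 0 := by
  have h := Finset.prod_univ_sum (fun _ : Fin m => (Finset.univ : Finset (ZMod 2)))
    (fun i a => if i ∈ W then sg a else (1 : ℤ))
  rw [Fintype.piFinset_univ] at h
  simp only [ch_eq]
  rw [← h]
  have h1 : ∑ a : ZMod 2, sg a = 0 := by decide
  split_ifs with hW
  · subst hW
    simp
  · obtain ⟨i, hi⟩ := Finset.nonempty_iff_ne_empty.mpr hW
    apply Finset.prod_eq_zero (Finset.mem_univ i)
    simp [hi, h1]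

lemma F_ker (w : Lam m) (hw : F w = 0) (U : X m) : (2 : ℤ) ∣ w U := by
  have h1 : ∀ u : S m, (2 : ℤ) ^ (m + 1) ∣ ∑ T, ch u T * w T := by
    intro u
    have h := congrFun hw u
    rw [F_apply, Pi.zero_apply, ZMod.intCast_zmod_eq_zero_iff_dvd] at h
    push_cast at h
    rw [pow_succ' 2 (m + 1)] at h
    exact Int.dvd_of_mul_dvd_mul_left (by norm_num) h
  have h2 : ∑ u : S m, ch u U * ∑ T, ch u T * w T = 2 ^ m * w U := by
    simp only [Finset.mul_sum]
    rw [Finset.sum_comm]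
    have : ∀ T : X m, ∑ u : S m, ch u U * (ch u T * w T) =
        if T = U then 2 ^ m * w U else 0 := by
      intro T
      simp only [← mul_assoc, ← ch_symm]
      rw [← Finset.sum_mul, sum_ch]
      by_cases hT : T = U
      · subst hT
        simp
      · have : U ∆ T ≠ ∅ := by
          intro h
          apply hT
          have h' : U ∆ T = ⊥ := h
          exact (symmDiff_eq_bot.mp h').symm
        simp [hT, this]
    simp only [this]
    simp
  have h3 : (2 : ℤ) ^ (m + 1) ∣ 2 ^ m * w U := by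
    rw [← h2]
    exact Finset.dvd_sum fun u _ => Dvd.dvd.mul_left (h1 u) _
  rw [pow_succ] at h3
  exact Int.dvd_of_mul_dvd_mul_left (by positivity) h3

lemma F_single (T : X m) (u : S m) :
    F (Pi.single T 1 : Lam m) u = ((2 * ch u T : ℤ) : ZMod (2 ^ (m + 2))) := by
  rw [F_apply]
  congr 2
  rw [Finset.sum_eq_single T]
  · simp
  · intro b _ hb
    simp [Pi.single_eq_of_ne hb]
  · intro h; exact absurd (Finset.mem_univ _) h

/-- the image -/
def J (m : ℕ) : AddSubgroup (Rg m) := (F (m := m)).range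

/-- twice the image -/
def J2 (m : ℕ) : AddSubgroup (Rg m) where
  carrier := {f | ∃ c : Lam m, f = F ((2 : ℤ) • c)}
  add_mem' := by
    rintro _ _ ⟨a, rfl⟩ ⟨b, rfl⟩
    exact ⟨a + b, by rw [smul_add, map_add]⟩
  zero_mem' := ⟨0, by simp⟩
  neg_mem' := by
    rintro _ ⟨a, rfl⟩
    exact ⟨-a, by rw [smul_neg, map_neg]⟩

lemma J2_le : J2 m ≤ J m := by
  rintro _ ⟨c, rfl⟩
  exact ⟨_, rfl⟩

lemma F_expand (a : Lam m) : F a = ∑ U, a U • F (Pi.single U 1 : Lam m) := by
  conv_lhs => rw [pi_eq_sum_univ' a]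
  rw [map_sum]
  simp only [map_zsmul]

lemma mul_mem_J2 {f g : Rg m} (hf : f ∈ J m) (hg : g ∈ J m) : f * g ∈ J2 m := by
  obtain ⟨a, rfl⟩ := hf
  obtain ⟨b, rfl⟩ := hg
  rw [F_expand a, F_expand b, Finset.sum_mul_sum]
  refine AddSubgroup.sum_mem _ fun U _ => AddSubgroup.sum_mem _ fun V _ => ?_
  rw [smul_mul_smul_comm]
  refine (J2 m).zsmul_mem ?_ _
  refine ⟨Pi.single (U ∆ V) 1, ?_⟩
  funext u
  rw [map_zsmul, Pi.mul_apply, Pi.smul_apply, F_single, F_single, F_single, ch_symm]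
  simp only [zsmul_eq_mul]
  push_cast
  ring

lemma sh_mem_J (v : S m) {f : Rg m} (hf : f ∈ J m) : sh v f ∈ J m := by
  obtain ⟨a, rfl⟩ := hf
  exact ⟨ch v * a, F_ch v a⟩

lemma const_mem_J (k : ℕ) : ((2 : Rg m) ^ (k + 1)) ∈ J m := by
  refine ⟨(2 : ℤ) ^ k • (Pi.single ∅ 1 : Lam m), ?_⟩
  funext u
  rw [map_zsmul, Pi.smul_apply, F_single]
  simp [ch, pow_succ]

lemma const_ne (k : ℕ) (hk : k < m + 2) : ((2 : Rg m) ^ k) ≠ 0 := by
  intro h
  have h1 := congrFun h 0
  simp only [Pi.pow_apply, Pi.ofNat_apply] at h1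
  have h2 : ((2 ^ k : ℕ) : ZMod (2 ^ (m + 2))) = 0 := by
    push_cast
    exact h1
  rw [ZMod.natCast_eq_zero_iff] at h2
  have := (Nat.pow_dvd_pow_iff_le_right (by norm_num : 1 < 2)).mp h2
  omega

end H876Z.Dl
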