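import Pool.Agent.H876Z.DlStep
import Pool.Agent.H876Z.DlFour

set_option autoImplicit false

/-! The group of unitriangular matrices extended by translations. -/

namespace H876Z.Dl

open H460Z.Dm
open Finset
open scoped commutatorElement

variable {m n : ℕ}

/-- matrices over the function ring -/
abbrev Mat (m n : ℕ) := Matrix (Fin n) (Fin n) (Rg m)

/-- translation of matrices -/
def shm (v : S m) : Mat m n →+* Mat m n := (sh v).mapMatrix

lemma shm_apply (v : S m) (A : Mat m n) (i j : Fin n) : shm v A i j = sh v (A i j) := rfl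

lemma shm_shm (u v : S m) (A : Mat m n) : shm u (shm v A) = shm (u + v) A := by
  ext i j : 2
  simp only [shm_apply, sh_sh]

lemma shm_zero (A : Mat m n) : shm 0 A = A := by
  ext i j : 2
  simp only [shm_apply, sh_zero]

/-- strictly upper triangular -/
def Up (A : Mat m n) : Prop := ∀ i j, ¬ i < j → A i j = 0

/-- entries in the image of the lattice -/
def InJ (A : Mat m n) : Prop := ∀ i j, A i j ∈ J m

lemma Up.shm {A : Mat m n} (h : Up A) (v : S m) : Up (shm v A) := fun i j hij => by
  rw [shm_apply, h i j hij, map_zero]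

lemma Up.add {A B : Mat m n} (h : Up A) (h' : Up B) : Up (A + B) := fun i j hij => by
  rw [Matrix.add_apply, h i j hij, h' i j hij, add_zero]

lemma Up.mul {A B : Mat m n} (h : Up A) (h' : Up B) : Up (A * B) := fun i j hij => by
  rw [Matrix.mul_apply]
  apply Finset.sum_eq_zero
  intro k _
  by_cases hk : i < k
  · rw [h' k j (fun h2 => hij (hk.trans h2)), mul_zero]
  · rw [h i k hk, zero_mul]

lemma InJ.shm {A : Mat m n} (h : InJ A) (v : S m) : InJ (shm v A) := fun i j =>
  sh_mem_J v (h i j)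

lemma InJ.add {A B : Mat m n} (h : InJ A) (h' : InJ B) : InJ (A + B) := fun i j =>
  (J m).add_mem (h i j) (h' i j)

lemma InJ.mul2 {A B : Mat m n} (h : InJ A) (h' : InJ B) (i j : Fin n) : (A * B) i j ∈ J2 m := by
  rw [Matrix.mul_apply]
  exact (J2 m).sum_mem fun k _ => mul_mem_J2 (h i k) (h' k j)

lemma InJ.mul {A B : Mat m n} (h : InJ A) (h' : InJ B) : InJ (A * B) := fun i j =>
  J2_le (h.mul2 h' i j)

/-- the group -/
@[ext] structure G (m n : ℕ) where
  x : Mat m n
  u : S m
  up : Up x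
  inJ : InJ x

instance : Mul (G m n) := ⟨fun g h =>
  ⟨g.x + shm g.u h.x + g.x * shm g.u h.x, g.u + h.u,
    (g.up.add (h.up.shm _)).add (g.up.mul (h.up.shm _)),
    (g.inJ.add (h.inJ.shm _)).add (g.inJ.mul (h.inJ.shm _))⟩⟩

instance : One (G m n) := ⟨⟨0, 0, fun _ _ _ => rfl, fun _ _ => (J m).zero_mem⟩⟩

lemma mul_x (g h : G m n) : (g * h).x = g.x + shm g.u h.x + g.x * shm g.u h.x := rfl
lemma mul_u (g h : G m n) : (g * h).u = g.u + h.u := rfl
lemma one_x : (1 : G m n).x = 0 := rfl
lemma one_u : (1 : G m n).u = 0 := rfl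

lemma one_add_mul (g h : G m n) : 1 + (g * h).x = (1 + g.x) * shm g.u (1 + h.x) := by
  rw [mul_x, map_add, map_one]
  noncomm_ring

lemma isUnit_one_add {A : Mat m n} (h : Up A) : IsUnit (1 + A) := by
  rw [Matrix.isUnit_iff_isUnit_det, Matrix.det_of_isUpperTriangular]
  · rw [Finset.prod_eq_one]
    · exact isUnit_one
    · intro i _
      rw [Matrix.add_apply, h i i (lt_irrefl i), Matrix.one_apply_eq, add_zero]
  · intro i j hij
    have hij' : j < i := hij
    rw [Matrix.add_apply, h i j (not_lt.mpr hij'.le), Matrix.one_apply_ne hij'.ne', add_zero]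

instance : Monoid (G m n) where
  mul_assoc g h k := by
    ext1
    · apply add_left_cancel (a := 1)
      rw [one_add_mul, one_add_mul, one_add_mul, one_add_mul, mul_u, map_mul, shm_shm, mul_assoc]
    · simp only [mul_u, add_assoc]
  one_mul g := by
    ext1
    · rw [mul_x, one_x, one_u, shm_zero, zero_mul, zero_add, add_zero]
    · rw [mul_u, one_u, zero_add]
  mul_one g := by
    ext1
    · rw [mul_x, one_x, map_zero, mul_zero, add_zero, add_zero]
    · rw [mul_u, one_u, add_zero]

instance : Finite (G m n) :=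
  Finite.of_injective (fun g : G m n => (g.x, g.u)) (fun g h e => by
    ext1
    · exact congrArg Prod.fst e
    · exact congrArg Prod.snd e)

lemma cancel (g h k : G m n) (e : g * h = g * k) : h = k := by
  have e1 := congrArg (fun y : G m n => 1 + y.x) e
  simp only [one_add_mul] at e1
  have e2 := (isUnit_one_add g.up).mul_left_cancel e1
  have e3 := congrArg (shm (-g.u)) e2
  rw [shm_shm, shm_shm, neg_add_cancel, shm_zero, shm_zero] at e3
  have e4 := congrArg G.u e
  rw [mul_u, mul_u] at e4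
  ext1
  · exact add_left_cancel e3
  · exact add_left_cancel e4

/-- the cancellative monoid structure -/
@[reducible] def lcm : LeftCancelMonoid (G m n) where
  mul_left_cancel g h k e := cancel g h k e

noncomputable instance : Group (G m n) :=
  letI := lcm (m := m) (n := n)
  LeftCancelMonoid.groupOfFinite

/-- degree of a position -/
def deg (p : Fin n × Fin n) : ℤ := (p.2 : ℤ) - (p.1 : ℤ)

/-- upward closed sets of positions above the diagonal -/
def Closed (Y : Finset (Fin n × Fin n)) : Prop :=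
  (∀ p ∈ Y, p.1 < p.2) ∧ ∀ p ∈ Y, ∀ q, deg p < deg q → q ∈ Y

/-- supported in `Y` -/
def Supp (Y : Finset (Fin n × Fin n)) (A : Mat m n) : Prop := ∀ i j, (i, j) ∉ Y → A i j = 0

/-- no position of `Y` lies below `p` -/
def Low (Y : Finset (Fin n × Fin n)) (p : Fin n × Fin n) : Prop := ∀ q ∈ Y, ¬ deg q < deg p

lemma Closed.low {Y : Finset (Fin n × Fin n)} (hY : Closed Y) {p : Fin n × Fin n} (hp : p ∉ Y) :
    Low Y p := fun q hq h => hp (hY.2 q hq p h)

lemma mul_low_left {Y : Finset (Fin n × Fin n)} {A B : Mat m n} (hA : Up A) (hB : Supp Y B)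
    {i l : Fin n} (h : Low Y (i, l)) : (A * B) i l = 0 := by
  rw [Matrix.mul_apply]
  apply Finset.sum_eq_zero
  intro k _
  by_cases hk : i < k
  · rw [hB k l (fun h2 => h _ h2 (by
      have : (i : ℕ) < k := hk
      simp only [deg]; omega)), mul_zero]
  · rw [hA i k hk, zero_mul]

lemma mul_low_right {Y : Finset (Fin n × Fin n)} {A B : Mat m n} (hA : Supp Y A) (hB : Up B)
    {i l : Fin n} (h : Low Y (i, l)) : (A * B) i l = 0 := by
  rw [Matrix.mul_apply]
  apply Finset.sum_eq_zero
  intro k _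
  by_cases hk : k < l
  · rw [hA i k (fun h2 => h _ h2 (by
      have : (k : ℕ) < l := hk
      simp only [deg]; omega)), zero_mul]
  · rw [hB k l hk, mul_zero]

lemma Supp.shm {Y : Finset (Fin n × Fin n)} {A : Mat m n} (h : Supp Y A) (v : S m) :
    Supp Y (shm v A) := fun i j hij => by
  rw [shm_apply, h i j hij, map_zero]

lemma Supp.add {Y : Finset (Fin n × Fin n)} {A B : Mat m n} (h : Supp Y A) (h' : Supp Y B) :
    Supp Y (A + B) := fun i j hij => by
  rw [Matrix.add_apply, h i j hij, h' i j hij, add_zero]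

/-- the submonoid of elements supported in `Y` -/
def PM (m : ℕ) (Y : Finset (Fin n × Fin n)) (hY : Closed Y) : Submonoid (G m n) where
  carrier := {g | g.u = 0 ∧ Supp Y g.x}
  one_mem' := ⟨rfl, fun _ _ _ => rfl⟩
  mul_mem' := by
    rintro g h ⟨hg, sg⟩ ⟨hh, sh⟩
    refine ⟨by rw [mul_u, hg, hh, add_zero], ?_⟩
    rw [mul_x]
    exact (sg.add (sh.shm _)).add fun i j hij => mul_low_left g.up (sh.shm _) (hY.low hij)

/-- the subgroup of elements supported in `Y` -/
def P (m : ℕ) (Y : Finset (Fin n × Fin n)) (hY : Closed Y) : Subgroup (G m n) where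
  toSubmonoid := PM m Y hY
  inv_mem' := fun {g} hg => by
    have : g⁻¹ = g ^ (orderOf g - 1) := by
      apply inv_eq_of_mul_eq_one_left
      rw [← pow_succ, tsub_add_cancel_of_le (orderOf_pos g), pow_orderOf_eq_one]
    rw [this]
    exact (PM m Y hY).pow_mem hg _

lemma mem_P {Y : Finset (Fin n × Fin n)} (hY : Closed Y) (g : G m n) :
    g ∈ P m Y hY ↔ g.u = 0 ∧ Supp Y g.x := Iff.rfl

lemma conj_x (g x : G m n) (hx : x.u = 0) :
    (g * x * g⁻¹).x = (shm g.u x.x + g.x * shm g.u x.x) +
      (shm g.u x.x + g.x * shm g.u x.x) * shm g.u (g⁻¹).x := by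
  have h1 := one_add_mul (g * x) g⁻¹
  rw [one_add_mul g x, mul_u, hx, add_zero] at h1
  have h2 := one_add_mul g g⁻¹
  rw [mul_inv_cancel, one_x, add_zero] at h2
  apply add_left_cancel (a := 1)
  rw [h1]
  simp only [map_add, map_one] at h2 ⊢
  have h3 : (1 + g.x) * (1 + shm g.u x.x) * (1 + shm g.u (g⁻¹).x) =
      (1 + g.x) * (1 + shm g.u (g⁻¹).x) + (shm g.u x.x + g.x * shm g.u x.x +
      (shm g.u x.x + g.x * shm g.u x.x) * shm g.u (g⁻¹).x) := by noncomm_ring
  rw [h3, ← h2]

lemma conj_low {Y : Finset (Fin n × Fin n)} (hY : Closed Y) (g x : G m n) (hx : x ∈ P m Y hY)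
    {i l : Fin n} (h : Low Y (i, l)) : (g * x * g⁻¹).x i l = sh g.u (x.x i l) := by
  have s1 : Supp Y (shm g.u x.x) := hx.2.shm _
  have s2 : Supp Y (g.x * shm g.u x.x) := fun i j hij => mul_low_left g.up s1 (hY.low hij)
  rw [conj_x g x hx.1, Matrix.add_apply, Matrix.add_apply, mul_low_left g.up s1 h,
    mul_low_right (s1.add s2) ((g⁻¹).up.shm _) h, add_zero, add_zero, shm_apply]

lemma inv_u (g : G m n) : (g⁻¹).u = - g.u := by
  have := mul_u g⁻¹ g
  rw [inv_mul_cancel, one_u] at this
  exact eq_neg_of_add_eq_zero_left this.symm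

/-- an elementary matrix -/
def tr (i j : Fin n) (hij : i < j) (c : Rg m) (hc : c ∈ J m) : G m n :=
  ⟨Matrix.single i j c, 0, fun a b hab => by
    apply Matrix.single_apply_of_ne
    rintro ⟨rfl, rfl⟩
    exact hab hij, fun a b => by
    by_cases h : i = a ∧ j = b
    · obtain ⟨rfl, rfl⟩ := h
      rw [Matrix.single_apply_same]; exact hc
    · rw [Matrix.single_apply_of_ne _ _ _ _ _ h]; exact (J m).zero_mem⟩

theorem layer (a : Fin n × Fin n) (s : Finset (Fin n × Fin n)) (ha : a ∉ s)
    (hmin : ∀ x ∈ s, deg a ≤ deg x) (hY : Closed (insert a s)) (hs : Closed s) :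
    Layer F (G.u : G m n → S m) (P m (insert a s) hY) (P m s hs) (fun g => g.x a.1 a.2) := by
  have hlow : Low (insert a s) (a.1, a.2) := by
    intro q hq
    rcases Finset.mem_insert.mp hq with rfl | hq
    · exact lt_irrefl _
    · exact not_lt.mpr (hmin q hq)
  refine ⟨F_M, ?_, ?_, ?_, ?_, ?_, ?_⟩
  · intro g hg
    exact ⟨hg.1, fun i j hij => hg.2 i j fun h => hij (Finset.mem_insert_of_mem h)⟩
  · intro x hx y hy
    simp only [mul_x, Matrix.add_apply]
    rw [mul_low_left x.up (hy.2.shm _) hlow, hx.1, shm_zero, add_zero]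
  · intro x hx
    constructor
    · intro h
      exact h.2 a.1 a.2 ha
    · intro h
      refine ⟨hx.1, fun i j hij => ?_⟩
      by_cases e : (i, j) = a
      · subst e; exact h
      · exact hx.2 i j fun h' => (Finset.mem_insert.mp h').elim e hij
  · intro x _
    obtain ⟨w, hw⟩ := x.inJ a.1 a.2
    exact ⟨w, hw.symm⟩
  · intro w
    refine ⟨tr a.1 a.2 (hY.1 a (Finset.mem_insert_self _ _)) (F w) ⟨w, rfl⟩, ⟨rfl, ?_⟩, ?_⟩
    · intro i j hij
      apply Matrix.single_apply_of_ne
      rintro ⟨rfl, rfl⟩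
      exact hij (Finset.mem_insert_self _ _)
    · exact Matrix.single_apply_same _ _ _
  · intro g x hx w hw
    refine ⟨⟨?_, fun i j hij => ?_⟩, ?_⟩
    · rw [mul_u, mul_u, hx.1, inv_u, add_zero, add_neg_cancel]
    · rw [conj_low hY g x hx (hY.low hij), hx.2 i j hij, map_zero]
    · rw [conj_low hY g x hx hlow, hw, F_ch]

theorem series (Y : Finset (Fin n × Fin n)) : ∀ hY : Closed Y,
    Good (P m Y hY) (Y.card * 2 ^ m) ∧ Strict (G.u : G m n → S m) (P m Y hY) (Y.card * 2 ^ m) ∧
      ∀ x ∈ P m Y hY, ∃ k : ℕ, x ^ 2 ^ k = 1 := by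
  induction Y using Finset.induction_on_min_value (deg (n := n)) with
  | empty =>
    intro hY
    have : P m ∅ hY = ⊥ := by
      rw [eq_bot_iff]
      intro g hg
      rw [Subgroup.mem_bot]
      ext1
      · apply Matrix.ext
        intro i j
        exact hg.2 i j (Finset.notMem_empty _)
      · exact hg.1
    rw [this, Finset.card_empty, zero_mul]
    refine ⟨good_bot, strict_bot _, fun x hx => ⟨0, ?_⟩⟩
    rw [Subgroup.mem_bot.mp hx, one_pow]
  | insert a s ha hmin ih =>
    intro hY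
    have hs : Closed s := by
      refine ⟨fun p hp => hY.1 p (Finset.mem_insert_of_mem hp), fun p hp q hq => ?_⟩
      rcases Finset.mem_insert.mp (hY.2 p (Finset.mem_insert_of_mem hp) q hq) with rfl | h
      · exact absurd (hmin p hp) (not_le.mpr hq)
      · exact h
    obtain ⟨h1, h2, h3⟩ := ih hs
    have L := layer (m := m) a s ha hmin hY hs
    rw [Finset.card_insert_of_notMem ha, add_mul, one_mul]
    exact ⟨L.good h1, L.strict h1 h2, L.two h3⟩

/-- all positions above the diagonal -/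
def Y0 (n : ℕ) : Finset (Fin n × Fin n) := Finset.univ.filter fun p => p.1 < p.2

lemma closed_Y0 : Closed (Y0 n) := by
  refine ⟨fun p hp => (Finset.mem_filter.mp hp).2, fun p hp q hq => ?_⟩
  have h : (p.1 : ℕ) < p.2 := (Finset.mem_filter.mp hp).2
  refine Finset.mem_filter.mpr ⟨Finset.mem_univ _, ?_⟩
  show (q.1 : ℕ) < q.2
  simp only [deg] at hq
  omega

lemma mem_P0 (g : G m n) (hg : g.u = 0) : g ∈ P m (Y0 n) closed_Y0 :=
  ⟨hg, fun i j hij => g.up i j fun h => hij (Finset.mem_filter.mpr ⟨Finset.mem_univ _, h⟩)⟩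

theorem isPGroup : IsPGroup 2 (G m n) := by
  intro g
  have h : (g * g).u = 0 := by
    rw [mul_u]
    funext i
    simp only [Pi.add_apply, Pi.zero_apply]
    generalize g.u i = x
    revert x; decide
  obtain ⟨k, hk⟩ := (series (m := m) (Y0 n) closed_Y0).2.2 _ (mem_P0 _ h)
  exact ⟨k + 1, by rw [pow_succ', pow_mul, pow_two, hk]⟩

theorem upper (H : Subgroup (G m n)) (hH : H ≠ ⊤) :
    ∃ s : Finset (G m n), Subgroup.closure (s : Set (G m n)) = H ∧
      s.card < (Y0 n).card * 2 ^ m + m :=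
  proper_gen G.u mul_u _ mem_P0 (series (Y0 n) closed_Y0).1 (series (Y0 n) closed_Y0).2.1 H hH

/-- a lattice representative of an entry -/
noncomputable def rep (g : G m n) (i j : Fin n) : Lam m := (g.inJ i j).choose

lemma F_rep (g : G m n) (i j : Fin n) : F (rep g i j) = g.x i j := (g.inJ i j).choose_spec

lemma red_eq {v w : Lam m} (h : F v = F w) (T : X m) : (v T : ZMod 2) = (w T : ZMod 2) := by
  have h1 := F_ker (v - w) (by rw [map_sub, h, sub_self]) T
  have h2 := (ZMod.intCast_zmod_eq_zero_iff_dvd _ 2).mpr h1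
  rw [Pi.sub_apply] at h2
  push_cast at h2
  exact sub_eq_zero.mp h2

/-- the Frattini quotient map -/
noncomputable def psi (g : G m n) : (Y0 n → X m → ZMod 2) × S m :=
  (fun p T => (rep g p.1.1 p.1.2 T : ZMod 2), g.u)

lemma psi_mul (g h : G m n) : psi (g * h) = psi g + psi h := by
  refine Prod.ext ?_ rfl
  funext p T
  obtain ⟨c, hc⟩ := g.inJ.mul2 (h.inJ.shm g.u) p.1.1 p.1.2
  have e : F (rep (g * h) p.1.1 p.1.2) =
      F (rep g p.1.1 p.1.2 + ch g.u * rep h p.1.1 p.1.2 + (2 : ℤ) • c) := by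
    rw [map_add, map_add, F_ch, F_rep, F_rep, F_rep, mul_x, Matrix.add_apply, Matrix.add_apply,
      hc, shm_apply]
  have h1 : ((ch g.u T : ℤ) : ZMod 2) = 1 := by
    have h := (ZMod.intCast_zmod_eq_zero_iff_dvd _ 2).mpr (ch_odd g.u T)
    push_cast at h
    exact sub_eq_zero.mp h
  have h2 : (2 : ZMod 2) = 0 := rfl
  simp only [psi, Prod.fst_add, Pi.add_apply]
  rw [red_eq e T]
  simp only [Pi.add_apply, Pi.mul_apply, Pi.smul_apply, smul_eq_mul]
  push_cast
  rw [h1, h2, one_mul, zero_mul, add_zero]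

lemma psi_surj : Function.Surjective (psi (m := m) (n := n)) := by
  rintro ⟨f, u⟩
  let A : Mat m n := fun i j => if h : i < j then
    F (fun T => ((f ⟨(i, j), Finset.mem_filter.mpr ⟨Finset.mem_univ _, h⟩⟩ T).val : ℤ)) else 0
  have hU : Up A := fun i j hij => dif_neg hij
  have hJ : InJ A := fun i j => by
    by_cases h : i < j
    · simp only [A, dif_pos h]; exact ⟨_, rfl⟩
    · simp only [A, dif_neg h]; exact (J m).zero_mem
  refine ⟨⟨A, u, hU, hJ⟩, Prod.ext ?_ rfl⟩
  funext p T
  have hp : p.1.1 < p.1.2 := (Finset.mem_filter.mp p.2).2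
  have e : F (rep ⟨A, u, hU, hJ⟩ p.1.1 p.1.2) = F (fun T => ((f p T).val : ℤ)) := by
    rw [F_rep]
    simp only [A, dif_pos hp]
  simp only [psi]
  rw [red_eq e T]
  simp

theorem lower (t : Finset (G m n)) (ht : Subgroup.closure (t : Set (G m n)) = ⊤) :
    (Y0 n).card * 2 ^ m + m ≤ t.card := by
  have h := gen_lower psi psi_mul psi_surj t ht
  have h4 : Module.finrank (ZMod 2) ((Y0 n → X m → ZMod 2) × S m) =
      (Y0 n).card * 2 ^ m + m := by
    simp [Module.finrank_pi_fintype]
  rwa [h4] at h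

lemma pow_mem_J (k : ℕ) : ((2 : Rg m) ^ 2 ^ k) ∈ J m := by
  have h := const_mem_J (m := m) (2 ^ k - 1)
  rwa [Nat.sub_add_cancel (Nat.one_le_two_pow)] at h

theorem derived (k : ℕ) : ∀ (i j : Fin n) (hij : i < j), (j : ℕ) = i + 2 ^ k →
    tr i j hij ((2 : Rg m) ^ 2 ^ k) (pow_mem_J k) ∈ derivedSeries (G m n) k := by
  induction k with
  | zero => intro i j _ _; exact Subgroup.mem_top _
  | succ k ih =>
    intro i l hil e
    have hpos : 0 < 2 ^ k := Nat.two_pow_pos k
    have hlt : (i : ℕ) + 2 ^ k < n := by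
      have := l.2
      rw [pow_succ] at e
      omega
    let j : Fin n := ⟨i + 2 ^ k, hlt⟩
    have hij : i < j := by
      show (i : ℕ) < i + 2 ^ k
      omega
    have hjl : j < l := by
      show (i : ℕ) + 2 ^ k < l
      rw [pow_succ] at e
      omega
    have h1 := ih i j hij rfl
    have h2 := ih j l hjl (by
      show (l : ℕ) = i + 2 ^ k + 2 ^ k
      rw [pow_succ] at e
      omega)
    have h3 := Subgroup.commutator_mem_commutator h1 h2
    rw [derivedSeries_succ]
    convert h3 using 1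
    rw [commutatorElement_def, eq_mul_inv_iff_mul_eq, eq_mul_inv_iff_mul_eq]
    ext1
    · simp only [mul_x, mul_u, tr, add_zero, shm_zero, add_mul]
      rw [Matrix.single_mul_single_same, Matrix.single_mul_single_of_ne _ _ _ _ hjl.ne',
        Matrix.single_mul_single_of_ne _ _ _ _ hil.ne',
        Matrix.single_mul_single_of_ne _ _ _ _ hil.ne', ← pow_add, ← two_mul (2 ^ k), ← pow_succ']
      simp only [zero_mul, add_zero]
      abel
    · simp only [mul_u, tr, add_zero]

theorem derived_ne_bot (k : ℕ) : derivedSeries (G (2 ^ k) (2 ^ k + 1)) k ≠ ⊥ := by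
  intro h
  have hpos : 0 < 2 ^ k := Nat.two_pow_pos k
  have h1 := derived (m := 2 ^ k) (n := 2 ^ k + 1) k 0 (Fin.last _) (by
    rw [Fin.lt_def]; simp) (by simp)
  rw [h, Subgroup.mem_bot] at h1
  have h2 := congrArg (fun g : G (2 ^ k) (2 ^ k + 1) => g.x 0 (Fin.last _)) h1
  simp only [tr, Matrix.single_apply_same, one_x, Matrix.zero_apply] at h2
  exact const_ne (2 ^ k) (by omega) h2

end H876Z.Dl
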