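import Pool.Agent.H460Z.DmLat

set_option autoImplicit false

/-! Abstract step: adding one central layer isomorphic to the lattice quotient. -/

namespace H876Z.Dl

open H460Z.Dm

variable {m : ℕ} {G : Type} [Group G]

/-- the subgroup maps onto the acting group -/
def Full (π : G → S m) (H : Subgroup G) : Prop := ∀ u, ∃ g ∈ H, π g = u

/-- every `H ⊓ P` is generated by at most `c` elements -/
def Good (P : Subgroup G) (c : ℕ) : Prop :=
  ∀ H : Subgroup G, ∃ B : Finset G, B.card ≤ c ∧ (∀ x ∈ B, x ∈ H) ∧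
    ∀ K : Subgroup G, K ≤ H → (∀ x ∈ B, x ∈ K) → H ⊓ P ≤ K

/-- the strict version for full subgroups -/
def Strict (π : G → S m) (P : Subgroup G) (c : ℕ) : Prop :=
  ∀ H : Subgroup G, Full π H → ¬ P ≤ H → ∃ B : Finset G, B.card < c ∧ (∀ x ∈ B, x ∈ H) ∧
    ∀ K : Subgroup G, K ≤ H → Full π K → (∀ x ∈ B, x ∈ K) → H ⊓ P ≤ K

/-- data of one layer -/
structure Layer {R : Type} [AddCommGroup R] (F : Lam m →+ R) (π : G → S m)
    (P P' : Subgroup G) (φ : G → R) : Prop where
  hF : ∀ w ∈ M m, F w = 0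
  hle : P' ≤ P
  hadd : ∀ x ∈ P, ∀ y ∈ P, φ (x * y) = φ x + φ y
  hker : ∀ x ∈ P, (x ∈ P' ↔ φ x = 0)
  hrange : ∀ x ∈ P, ∃ w, φ x = F w
  hsurj : ∀ w, ∃ x ∈ P, φ x = F w
  hconj : ∀ g, ∀ x ∈ P, ∀ w, φ x = F w →
    g * x * g⁻¹ ∈ P ∧ φ (g * x * g⁻¹) = F (ch (π g) * w)

namespace Layer

variable {R : Type} [AddCommGroup R] {F : Lam m →+ R} {π : G → S m}
  {P P' : Subgroup G} {φ : G → R}

lemma one (h : Layer F π P P' φ) : φ 1 = 0 := by
  have := h.hadd 1 P.one_mem 1 P.one_mem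
  rw [one_mul] at this
  exact left_eq_add.mp this

lemma inv (h : Layer F π P P' φ) (x : G) (hx : x ∈ P) : φ x⁻¹ = - φ x := by
  have := h.hadd x⁻¹ (P.inv_mem hx) x hx
  rw [inv_mul_cancel, h.one] at this
  exact eq_neg_of_add_eq_zero_left this.symm

lemma pow (h : Layer F π P P' φ) (x : G) (hx : x ∈ P) (k : ℕ) : φ (x ^ k) = k • φ x := by
  induction k with
  | zero => simp [h.one]
  | succ k ih => rw [pow_succ, h.hadd _ (P.pow_mem hx k) _ hx, ih, succ_nsmul]

/-- the lattice of a subgroup -/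
def lat (h : Layer F π P P' φ) (H : Subgroup G) : Submodule ℤ (Lam m) :=
  AddSubgroup.toIntSubmodule
    { carrier := {w | ∃ x ∈ H, x ∈ P ∧ φ x = F w}
      add_mem' := by
        rintro a b ⟨x, hx, hxP, ex⟩ ⟨y, hy, hyP, ey⟩
        exact ⟨x * y, H.mul_mem hx hy, P.mul_mem hxP hyP, by
          rw [h.hadd x hxP y hyP, ex, ey, map_add]⟩
      zero_mem' := ⟨1, H.one_mem, P.one_mem, by rw [h.one, map_zero]⟩
      neg_mem' := by
        rintro a ⟨x, hx, hxP, ex⟩
        exact ⟨x⁻¹, H.inv_mem hx, P.inv_mem hxP, by rw [h.inv x hxP, ex, map_neg]⟩ }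

lemma mem_lat (h : Layer F π P P' φ) (H : Subgroup G) (w : Lam m) :
    w ∈ h.lat H ↔ ∃ x ∈ H, x ∈ P ∧ φ x = F w := Iff.rfl

lemma M_le (h : Layer F π P P' φ) (H : Subgroup G) : M m ≤ h.lat H := fun w hw =>
  ⟨1, H.one_mem, P.one_mem, by rw [h.one, h.hF w hw]⟩

lemma stable (h : Layer F π P P' φ) (H : Subgroup G) (hH : Full π H) (u : S m) (w : Lam m)
    (hw : w ∈ h.lat H) : ch u * w ∈ h.lat H := by
  obtain ⟨g, hg, rfl⟩ := hH u
  obtain ⟨x, hx, hxP, ex⟩ := hw
  obtain ⟨h1, h2⟩ := h.hconj g x hxP w ex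
  exact ⟨g * x * g⁻¹, H.mul_mem (H.mul_mem hg hx) (H.inv_mem hg), h1, h2⟩

lemma le_of (h : Layer F π P P' φ) (H K : Subgroup G) (hKH : K ≤ H)
    (h1 : h.lat H ≤ h.lat K) (h2 : H ⊓ P' ≤ K) : H ⊓ P ≤ K := by
  intro x hx
  obtain ⟨w, hw⟩ := h.hrange x hx.2
  obtain ⟨y, hy, hyP, ey⟩ := h1 (show w ∈ h.lat H from ⟨x, hx.1, hx.2, hw⟩)
  have h3 : x * y⁻¹ ∈ P := P.mul_mem hx.2 (P.inv_mem hyP)
  have h4 : x * y⁻¹ ∈ P' := by
    rw [h.hker _ h3, h.hadd x hx.2 _ (P.inv_mem hyP), h.inv y hyP, hw, ey, add_neg_cancel]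
  have h5 : x * y⁻¹ ∈ K := h2 ⟨H.mul_mem hx.1 (H.inv_mem (hKH hy)), h4⟩
  have : x = x * y⁻¹ * y := by simp
  rw [this]
  exact K.mul_mem h5 hy

/-- lifting a finite set of lattice vectors -/
lemma lift (h : Layer F π P P' φ) (H : Subgroup G) (B : Finset (Lam m))
    (hB : ∀ w ∈ B, w ∈ h.lat H) :
    ∃ C : Finset G, C.card ≤ B.card ∧ (∀ x ∈ C, x ∈ H) ∧
      ∀ K : Subgroup G, (∀ x ∈ C, x ∈ K) → ∀ w ∈ B, w ∈ h.lat K := by
  classical
  have : ∀ w : Lam m, ∃ x : G, w ∈ B → x ∈ H ∧ x ∈ P ∧ φ x = F w := by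
    intro w
    by_cases hw : w ∈ B
    · obtain ⟨x, hx⟩ := hB w hw
      exact ⟨x, fun _ => hx⟩
    · exact ⟨1, fun h => absurd h hw⟩
  choose f hf using this
  refine ⟨B.image f, Finset.card_image_le, ?_, ?_⟩
  · intro x hx
    obtain ⟨w, hw, rfl⟩ := Finset.mem_image.mp hx
    exact (hf w hw).1
  · intro K hK w hw
    exact ⟨f w, hK _ (Finset.mem_image_of_mem _ hw), (hf w hw).2⟩

lemma weak (h : Layer F π P P' φ) (H : Subgroup G) :
    ∃ C : Finset G, C.card ≤ 2 ^ m ∧ (∀ x ∈ C, x ∈ H) ∧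
      ∀ K : Subgroup G, (∀ x ∈ C, x ∈ K) → h.lat H ≤ h.lat K := by
  classical
  obtain ⟨r, hr, b, hb⟩ := exists_family (h.lat H)
  obtain ⟨C, h1, h2, h3⟩ := h.lift H (Finset.univ.image b) (by
    intro w hw
    obtain ⟨i, _, rfl⟩ := Finset.mem_image.mp hw
    exact hb ▸ Submodule.subset_span ⟨i, rfl⟩)
  refine ⟨C, h1.trans (Finset.card_image_le.trans (by simpa using hr)), h2, fun K hK => ?_⟩
  rw [← hb, Submodule.span_le]
  rintro _ ⟨i, rfl⟩
  exact h3 K hK _ (Finset.mem_image_of_mem _ (Finset.mem_univ i))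

lemma strong (h : Layer F π P P' φ) (H : Subgroup G) (hH : Full π H) (hL : h.lat H ≠ ⊤) :
    ∃ C : Finset G, C.card < 2 ^ m ∧ (∀ x ∈ C, x ∈ H) ∧
      ∀ K : Subgroup G, Full π K → (∀ x ∈ C, x ∈ K) → h.lat H ≤ h.lat K := by
  obtain ⟨B, hB1, hB2, hB3⟩ := key (h.lat H) (h.M_le H) (h.stable H hH) hL
  obtain ⟨C, h1, h2, h3⟩ := h.lift H B hB2
  exact ⟨C, lt_of_le_of_lt h1 hB1, h2, fun K hK hC =>
    hB3 _ (h.M_le K) (h.stable K hK) (h3 K hC)⟩

theorem good (h : Layer F π P P' φ) {c : ℕ} (h1 : Good P' c) : Good P (c + 2 ^ m) := by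
  classical
  intro H
  obtain ⟨B, b1, b2, b3⟩ := h1 H
  obtain ⟨C, c1, c2, c3⟩ := h.weak H
  refine ⟨B ∪ C, (Finset.card_union_le _ _).trans (add_le_add b1 c1), ?_, ?_⟩
  · intro x hx
    rcases Finset.mem_union.mp hx with hx | hx
    · exact b2 x hx
    · exact c2 x hx
  · intro K hK hx
    exact h.le_of H K hK (c3 K fun x h' => hx x (Finset.mem_union_right _ h'))
      (b3 K hK fun x h' => hx x (Finset.mem_union_left _ h'))

theorem strict (h : Layer F π P P' φ) {c : ℕ} (h1 : Good P' c) (h2 : Strict π P' c) :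
    Strict π P (c + 2 ^ m) := by
  classical
  intro H hH hP
  by_cases hL : h.lat H = ⊤
  · have hP' : ¬ P' ≤ H := by
      intro hP'
      apply hP
      have := h.le_of ⊤ H
      intro x hx
      obtain ⟨w, hw⟩ := h.hrange x hx
      obtain ⟨y, hy, hyP, ey⟩ := (show w ∈ h.lat H from hL ▸ Submodule.mem_top)
      have h3 : x * y⁻¹ ∈ P := P.mul_mem hx (P.inv_mem hyP)
      have h4 : x * y⁻¹ ∈ P' := by
        rw [h.hker _ h3, h.hadd x hx _ (P.inv_mem hyP), h.inv y hyP, hw, ey, add_neg_cancel]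
      have : x = x * y⁻¹ * y := by simp
      rw [this]
      exact H.mul_mem (hP' h4) hy
    obtain ⟨B, b1, b2, b3⟩ := h2 H hH hP'
    obtain ⟨C, c1, c2, c3⟩ := h.weak H
    refine ⟨B ∪ C, lt_of_le_of_lt (Finset.card_union_le _ _) (by omega), ?_, ?_⟩
    · intro x hx
      rcases Finset.mem_union.mp hx with hx | hx
      · exact b2 x hx
      · exact c2 x hx
    · intro K hK hf hx
      exact h.le_of H K hK (c3 K fun x h' => hx x (Finset.mem_union_right _ h'))
        (b3 K hK hf fun x h' => hx x (Finset.mem_union_left _ h'))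
  · obtain ⟨B, b1, b2, b3⟩ := h1 H
    obtain ⟨C, c1, c2, c3⟩ := h.strong H hH hL
    refine ⟨B ∪ C, lt_of_le_of_lt (Finset.card_union_le _ _) (by omega), ?_, ?_⟩
    · intro x hx
      rcases Finset.mem_union.mp hx with hx | hx
      · exact b2 x hx
      · exact c2 x hx
    · intro K hK hf hx
      exact h.le_of H K hK (c3 K hf fun x h' => hx x (Finset.mem_union_right _ h'))
        (b3 K hK fun x h' => hx x (Finset.mem_union_left _ h'))

theorem two (h : Layer F π P P' φ) (h1 : ∀ x ∈ P', ∃ k : ℕ, x ^ 2 ^ k = 1) :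
    ∀ x ∈ P, ∃ k : ℕ, x ^ 2 ^ k = 1 := by
  intro x hx
  obtain ⟨w, hw⟩ := h.hrange x hx
  have h2 : x ^ 2 ^ (m + 1) ∈ P' := by
    rw [h.hker _ (P.pow_mem hx _), h.pow x hx, hw, ← map_nsmul]
    apply h.hF
    have := pow_smul_mem_M w
    rwa [← natCast_zsmul, Nat.cast_pow, Nat.cast_ofNat]
  obtain ⟨k, hk⟩ := h1 _ h2
  exact ⟨m + 1 + k, by rw [pow_add, pow_mul, hk]⟩

end Layer

lemma good_bot : Good (⊥ : Subgroup G) 0 := fun _ =>
  ⟨∅, le_rfl, by simp, fun _ _ _ => by simp⟩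

lemma strict_bot (π : G → S m) : Strict π (⊥ : Subgroup G) 0 := fun _ _ h =>
  absurd bot_le h

/-- the image of a subgroup in `S` -/
def top (π : G → S m) (hπ : ∀ g h, π (g * h) = π g + π h) (H : Subgroup G) :
    Submodule (ZMod 2) (S m) :=
  AddSubgroup.toZModSubmodule 2
    { carrier := {u | ∃ g ∈ H, π g = u}
      add_mem' := by
        rintro _ _ ⟨g, hg, rfl⟩ ⟨h, hh, rfl⟩
        exact ⟨g * h, H.mul_mem hg hh, hπ g h⟩
      zero_mem' := ⟨1, H.one_mem, by
        have := hπ 1 1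
        rw [one_mul] at this
        exact left_eq_add.mp this⟩
      neg_mem' := by
        rintro _ ⟨g, hg, rfl⟩
        refine ⟨g⁻¹, H.inv_mem hg, ?_⟩
        have h1 := hπ 1 1
        rw [one_mul] at h1
        have h2 := hπ g⁻¹ g
        rw [inv_mul_cancel, left_eq_add.mp h1] at h2
        exact eq_neg_of_add_eq_zero_left h2.symm }

theorem proper_gen (π : G → S m) (hπ : ∀ g h, π (g * h) = π g + π h) (P : Subgroup G)
    (hP : ∀ x, π x = 0 → x ∈ P) {c : ℕ} (h1 : Good P c) (h2 : Strict π P c)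
    (H : Subgroup G) (hH : H ≠ ⊤) :
    ∃ s : Finset G, Subgroup.closure (s : Set G) = H ∧ s.card < c + m := by
  classical
  have hb : ∀ i, ∃ g ∈ H, π g = (Module.finBasis (ZMod 2) (top π hπ H) i : S m) :=
    fun i => (Module.finBasis (ZMod 2) (top π hπ H) i).2
  choose g hg hu using hb
  have hgK : ∀ K : Subgroup G, (∀ i, g i ∈ K) → top π hπ H ≤ top π hπ K := by
    intro K hK
    have h := (Module.finBasis (ZMod 2) (top π hπ H)).span_eq
    have h2 := congrArg (Submodule.map (top π hπ H).subtype) h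
    rw [Submodule.map_span, Submodule.map_top, Submodule.range_subtype, ← Set.range_comp] at h2
    rw [← h2, Submodule.span_le]
    rintro _ ⟨i, rfl⟩
    exact ⟨g i, hK i, hu i⟩
  have hneg : ∀ x, π x⁻¹ = - π x := by
    intro x
    have h1 := hπ 1 1
    rw [one_mul] at h1
    have h2 := hπ x⁻¹ x
    rw [inv_mul_cancel, left_eq_add.mp h1] at h2
    exact eq_neg_of_add_eq_zero_left h2.symm
  have hle : ∀ A K : Subgroup G, K ≤ A → top π hπ A ≤ top π hπ K → A ⊓ P ≤ K → A ≤ K := by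
    intro A K hK ht hI x hx
    obtain ⟨k, hk, e⟩ := ht (show π x ∈ top π hπ A from ⟨x, hx, rfl⟩)
    have h3 : x * k⁻¹ ∈ P := hP _ (by rw [hπ, hneg, e, add_neg_cancel])
    have h4 : x * k⁻¹ ∈ K := hI ⟨A.mul_mem hx (A.inv_mem (hK hk)), h3⟩
    have : x = x * k⁻¹ * k := by simp
    rw [this]
    exact K.mul_mem h4 hk
  have hS : Module.finrank (ZMod 2) (S m) = m := by simp
  have asm : ∀ B : Finset G, (∀ w ∈ B, w ∈ H) →
      B.card + Module.finrank (ZMod 2) (top π hπ H) < c + m →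
      (∀ K : Subgroup G, K ≤ H → top π hπ H ≤ top π hπ K → (∀ w ∈ B, w ∈ K) → H ⊓ P ≤ K) →
      ∃ s : Finset G, Subgroup.closure (s : Set G) = H ∧ s.card < c + m := by
    intro B hB hc hK
    refine ⟨B ∪ Finset.univ.image g, ?_, ?_⟩
    · have hl : Subgroup.closure ((B ∪ Finset.univ.image g : Finset G) : Set G) ≤ H := by
        rw [Subgroup.closure_le]
        intro x hx
        rcases Finset.mem_union.mp hx with hx | hx
        · exact hB x hx
        · obtain ⟨i, _, rfl⟩ := Finset.mem_image.mp hx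
          exact hg i
      refine le_antisymm hl ?_
      have ht := hgK (Subgroup.closure ((B ∪ Finset.univ.image g : Finset G) : Set G))
        (fun i => Subgroup.subset_closure (Finset.mem_coe.mpr
            (Finset.mem_union_right _ (Finset.mem_image_of_mem _ (Finset.mem_univ i)))))
      refine hle _ _ hl ht (hK _ hl ht ?_)
      intro w hw
      exact Subgroup.subset_closure (Finset.mem_coe.mpr (Finset.mem_union_left _ hw))
    · refine lt_of_le_of_lt (Finset.card_union_le _ _) (lt_of_le_of_lt ?_ hc)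
      refine add_le_add le_rfl (Finset.card_image_le.trans ?_)
      simp
  by_cases ht : top π hπ H = ⊤
  · have hfull : ∀ K : Subgroup G, top π hπ H ≤ top π hπ K → Full π K := by
      intro K hK u
      exact hK (show u ∈ top π hπ H from ht ▸ Submodule.mem_top)
    have hP' : ¬ P ≤ H := by
      intro hP'
      apply hH
      rw [eq_top_iff]
      refine hle ⊤ H le_top ?_ (inf_le_right.trans hP')
      rw [ht]; exact le_top
    obtain ⟨B, b1, b2, b3⟩ := h2 H (hfull H le_rfl) hP'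
    refine asm B b2 ?_ fun K hK hT hB => b3 K hK (hfull K hT) hB
    have := Submodule.finrank_le (top π hπ H)
    omega
  · obtain ⟨B, b1, b2, b3⟩ := h1 H
    refine asm B b2 ?_ fun K hK _ hB => b3 K hK hB
    have := Submodule.finrank_lt ht
    omega

/-- lower bound for the number of generators from an additive surjection -/
theorem gen_lower {V : Type} [AddCommGroup V] [Module (ZMod 2) V] [Module.Finite (ZMod 2) V]
    (ψ : G → V) (hψ : ∀ g h, ψ (g * h) = ψ g + ψ h) (hs : Function.Surjective ψ)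
    (t : Finset G) (ht : Subgroup.closure (t : Set G) = ⊤) :
    Module.finrank (ZMod 2) V ≤ t.card := by
  classical
  have h0 : ψ 1 = 0 := by
    have := hψ 1 1
    rw [one_mul] at this
    exact left_eq_add.mp this
  have h1 : ∀ g : G, ψ g ∈ Submodule.span (ZMod 2) ((t.image ψ : Finset _) : Set _) := by
    intro g
    have hg : g ∈ Subgroup.closure (t : Set G) := ht ▸ Subgroup.mem_top g
    induction hg using Subgroup.closure_induction with
    | mem x hx => exact Submodule.subset_span (Finset.mem_coe.mpr (Finset.mem_image_of_mem _ hx))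
    | one => rw [h0]; exact Submodule.zero_mem _
    | mul x y _ _ hx hy => rw [hψ]; exact Submodule.add_mem _ hx hy
    | inv x _ hx =>
      have : ψ x⁻¹ = - ψ x := by
        have h := hψ x⁻¹ x
        rw [inv_mul_cancel, h0] at h
        exact eq_neg_of_add_eq_zero_left h.symm
      rw [this]; exact Submodule.neg_mem _ hx
  have h2 : Submodule.span (ZMod 2) ((t.image ψ : Finset _) : Set V) = ⊤ := by
    rw [eq_top_iff]
    intro v _
    obtain ⟨g, rfl⟩ := hs v
    exact h1 g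
  have h3 := finrank_span_finset_le_card (R := ZMod 2) (t.image ψ)
  rw [Set.finrank, h2, finrank_top] at h3
  exact h3.trans Finset.card_image_le

end H876Z.Dl
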